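import Pool.Agent.U226.RC.Law
import Pool.Agent.N64.AF.W

/-!
# The rank criterion for the powers of `T ⊗ Tᘁ`
-/

set_option autoImplicit false
set_option linter.unusedSectionVars false
set_option linter.style.haveILetI false

open CategoryTheory Limits MonoidalCategory Module Filter Topology
open Pool.Agent.Y112.SR Pool.Agent.Y112.KD Pool.Agent.N64.AF Pool.Agent.N199.AFA3
open Pool.Agent.U724.NT Pool.Agent.N64.AF.N441G Pool.Agent.N413.AFW
open Pool.Agent.Y116.MT (tr)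

namespace Pool.Agent.U226.RC

universe v u w t x

variable {C : Type u} [Category.{v} C] [Preadditive C] [MonoidalCategory C]
  [MonoidalPreadditive C] [SymmetricCategory C] [RightRigidCategory C]
  {Λ : Type t} [Field Λ] [CharZero Λ] [Linear Λ C] [MonoidalLinear Λ C]
  {K : Type w} [Field K] [IsAlgClosed K] [Algebra Λ K] {R : SuperRealisation C K}

/-- Schur's bound for all exponents. -/
theorem nr_le_tensor_dual (hR : IsReal Λ R) {T : C} (hT : R.CPlus T) {Y : C} (hY : R.CPlus Y)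
    {u : Y ⟶ Y} {r : ℕ} (hu : NumIdem u) (hr : IsRk R u r) (n : ℕ) :
    nr Λ u (𝟙 (tp (T ⊗ Tᘁ) n)) ≤ r * numRank Λ (tp (T ⊗ Tᘁ) n) := by
  letI := pairTp T Tᘁ n
  rw [numRank_tensor_dual hR T n, nr_congr_right hR (isoTp T Tᘁ n) u
    (f' := 𝟙 (tp T n ⊗ dp Tᘁ n)) (by rw [Category.id_comp, Category.comp_id]),
    ← id_whiskerRight, ← nr_dual hR (tp T n) (dp Tᘁ n)]
  exact schur hR hY (cplus_tp hR hT n) hu hr

/-- The limit for pieces of the powers. -/
theorem tendsto_tensor_dual (hR : IsReal Λ R) {T : C} (hT : R.CPlus T) (hb : 0 < bt R T) {m : ℕ}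
    {u : tp (T ⊗ Tᘁ) m ⟶ tp (T ⊗ Tᘁ) m} {r : ℕ} (hu : NumIdem u) (hr : IsRk R u r) :
    Tendsto (fun n => (nr Λ u (𝟙 (tp (T ⊗ Tᘁ) n)) : ℝ) / numRank Λ (tp (T ⊗ Tᘁ) n)) atTop
      (𝓝 (r : ℝ)) := by
  obtain ⟨inst, hS⟩ := isPow_tensor_dual hR hT hb
  have h1 := tendsto_piece hS hu hr
  have h2 := (numRank_tendsto hS).2 0
  rw [pow_zero] at h2
  have h3 := h1.div h2 one_ne_zero
  rw [div_one] at h3
  refine h3.congr fun n => ?_
  have hp : cs Λ R (T ⊗ Tᘁ) n ≠ 0 := (cs_pos hS n).ne'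
  change (nr Λ u (𝟙 (tp (T ⊗ Tᘁ) n)) : ℝ) / cs Λ R (T ⊗ Tᘁ) n /
    ((numRank Λ (tp (T ⊗ Tᘁ) n) : ℝ) / cs Λ R (T ⊗ Tᘁ) n) = _
  rw [div_div_div_cancel_right₀ hp]

lemma trace_numTriv (hR : IsReal Λ R) {Y : C} (hY : R.CPlus Y) {Q : Y ⟶ Y} (hQ : HIdem R Q)
    (hn : NumTriv Q) : R.H.map Q = 0 := by
  have hK : CharZero K := charZero_of_injective_algebraMap (algebraMap Λ K).injective
  obtain ⟨w, hw⟩ := P1aux.of_cplus hY
  have h1 := (tr_eq_zero_iff hR _).1 (hn w)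
  have h2 : R.H.map (Q ≫ w) ≫ R.par Y = R.H.map Q := by
    rw [R.H.map_comp, hw, Category.assoc, R.par_sq, Category.comp_id]
  rw [h2, trace_eq hQ] at h1
  exact map_of_rk (by exact_mod_cast h1)

/-- A piece of rank at most one is purely even or purely odd. -/
lemma par_of_rk_le_one {Y : C} {Q : Y ⟶ Y} (hQ : HIdem R Q) (h : rk R Q ≤ 1) :
    ∃ f : Y ⟶ Y, R.H.map f = R.H.map Q ≫ R.par Y := by
  have := R.finite Y
  have hQQ : R.H.map Q ≫ R.H.map Q = R.H.map Q := hQ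
  rcases Nat.le_one_iff_eq_zero_or_eq_one.1 h with h0 | h1
  · exact ⟨0, by rw [R.H.map_zero, map_of_rk h0, zero_comp]⟩
  · unfold rk at h1
    rw [finrank_eq_one_iff'] at h1
    obtain ⟨⟨v, hv⟩, hv0, hspan⟩ := h1
    have hv1 : v ≠ 0 := fun h => hv0 (Subtype.ext h)
    have hQv : (R.H.map Q).hom v = v := by
      obtain ⟨y, rfl⟩ := hv
      exact LinearMap.congr_fun (congrArg (fun z => z.hom) hQQ) y
    have hnat : ∀ x, (R.par Y).hom ((R.H.map Q).hom x) = (R.H.map Q).hom ((R.par Y).hom x) :=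
      fun x => LinearMap.congr_fun (congrArg (fun z => z.hom) (R.par_natural Q)) x
    have hpv : (R.par Y).hom v ∈ LinearMap.range (R.H.map Q).hom :=
      ⟨(R.par Y).hom v, by rw [← hnat, hQv]⟩
    obtain ⟨c, hc⟩ := hspan ⟨_, hpv⟩
    have hc' : (R.par Y).hom v = c • v := (congrArg Subtype.val hc).symm
    have hsq : c * c = 1 := by
      have h2 : (R.par Y).hom ((R.par Y).hom v) = v :=
        LinearMap.congr_fun (congrArg (fun z => z.hom) (R.par_sq Y)) v
      rw [hc', map_smul, hc', smul_smul] at h2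
      have h3 : (c * c - 1) • v = 0 := by rw [sub_smul, one_smul, h2, sub_self]
      rcases smul_eq_zero.1 h3 with h | h
      · exact sub_eq_zero.1 h
      · exact absurd h hv1
    have hx : ∀ x, (R.par Y).hom ((R.H.map Q).hom x) = c • (R.H.map Q).hom x := by
      intro x
      obtain ⟨d, hd⟩ := hspan ⟨(R.H.map Q).hom x, ⟨x, rfl⟩⟩
      have hd' : d • v = (R.H.map Q).hom x := congrArg Subtype.val hd
      rw [← hd', map_smul, hc', smul_comm]
    rcases mul_self_eq_one_iff.1 hsq with h | h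
    · refine ⟨Q, ?_⟩
      ext x
      have h4 := hx x
      rw [h, one_smul] at h4
      exact h4.symm
    · refine ⟨-Q, ?_⟩
      rw [R.H.map_neg]
      ext x
      have h4 := hx x
      rw [h, neg_one_smul] at h4
      exact h4.symm

/-- `P` is the projector to the part of `B` which is related to the powers of `T`. -/
def IsPart (R : SuperRealisation C K) (T : C) {B : C} (P : B ⟶ B) : Prop :=
  HIdem R P ∧ Dom R T P ∧ ∀ (n : ℕ) (g : B ⟶ tp T n), NumTriv ((𝟙 B - P) ≫ g)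

/-- **The rank criterion.** -/
theorem criterion (hR : IsReal Λ R) {T : C} (hT : R.CPlus T) (hb : 0 < bt R T) (B : C) :
    ∃ P : B ⟶ B, IsPart R (T ⊗ Tᘁ) P ∧
      Tendsto (fun n => (nr Λ (𝟙 B) (𝟙 (tp (T ⊗ Tᘁ) n)) : ℝ) / numRank Λ (tp (T ⊗ Tᘁ) n)) atTop
        (𝓝 (rk R P : ℝ)) ∧
      (∀ n, nr Λ (𝟙 B) (𝟙 (tp (T ⊗ Tᘁ) n)) ≤ rk R P * numRank Λ (tp (T ⊗ Tᘁ) n)) ∧
      (rk R P = bt R B ↔ Dom R (T ⊗ Tᘁ) (𝟙 B)) ∧
      (R.CPlus B ↔ ∃ f : B ⟶ B, R.H.map f = R.H.map (𝟙 B - P) ≫ R.par B) ∧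
      (bt R B ≤ rk R P + 1 → R.CPlus B) ∧
      ∀ n, bt R B * numRank Λ (tp (T ⊗ Tᘁ) n) <
        nr Λ (𝟙 B) (𝟙 (tp (T ⊗ Tᘁ) n)) + 2 * numRank Λ (tp (T ⊗ Tᘁ) n) → R.CPlus B := by
  have hK : CharZero K := charZero_of_injective_algebraMap (algebraMap Λ K).injective
  have hS : R.CPlus (T ⊗ Tᘁ) := cplus_tensor hR hT (cplus_dual hR hT)
  have := R.finite B
  have hid : HIdem R (𝟙 B) := by
    unfold HIdem
    rw [R.H.map_id, Category.comp_id]
  obtain ⟨P, hP, hle, hq1, hq2, hdom, htriv, hbound, hlim⟩ := law_aux hR hS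
    (fun m u r hu hr => ⟨fun n => nr_le_tensor_dual hR hT (cplus_tp hR hS m) hu hr n,
      tendsto_tensor_dual hR hT hb hu hr⟩) (rk R (𝟙 B)) (𝟙 B) hid rfl
  have hPP : R.H.map P ≫ R.H.map P = R.H.map P := hP
  have hrkid : rk R (𝟙 B) = bt R B := by
    unfold rk bt
    rw [R.H.map_id]
    change finrank K (LinearMap.range (LinearMap.id : R.H.obj B →ₗ[K] R.H.obj B)) = _
    rw [LinearMap.range_id, finrank_top]
  rw [hrkid] at hle
  have hQ : HIdem R (𝟙 B - P) := by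
    unfold HIdem
    rw [Functor.map_sub, R.H.map_id, Preadditive.sub_comp, Preadditive.comp_sub,
      Preadditive.comp_sub, hPP, Category.id_comp, Category.comp_id]
    simp
  have hQr : rk R P + rk R (𝟙 B - P) = bt R B := by
    have t1 := trace_eq hP
    have t2 := trace_eq hQ
    have t3 := trace_eq hid
    have t4 : (R.H.map (𝟙 B)).hom = (R.H.map P).hom + (R.H.map (𝟙 B - P)).hom := by
      rw [Functor.map_sub]
      ext x
      simp
    rw [t4, map_add, t1, t2, hrkid] at t3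
    exact_mod_cast t3
  have hfull : rk R P = bt R B → Dom R (T ⊗ Tᘁ) (𝟙 B) := by
    intro h
    have h1 : rk R (𝟙 B - P) = 0 := by omega
    have h2 := map_of_rk h1
    rw [Functor.map_sub, sub_eq_zero] at h2
    obtain ⟨l, m, a, b, hab⟩ := hdom
    exact ⟨l, m, a, b, by rw [h2, hab]⟩
  have hiff : R.CPlus B ↔ ∃ f : B ⟶ B, R.H.map f = R.H.map (𝟙 B - P) ≫ R.par B := by
    constructor
    · intro hB
      obtain ⟨w, hw⟩ := P1aux.of_cplus hB
      exact ⟨(𝟙 B - P) ≫ w, by rw [R.H.map_comp, hw]⟩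
    · rintro ⟨f, hf⟩
      obtain ⟨f0, hf0⟩ := dom_par hR hS hdom
      refine P1aux.cplus_of hR (f0 + f) ?_
      rw [Functor.map_add, hf0, hf, ← Preadditive.add_comp, ← Functor.map_add, add_sub_cancel,
        R.H.map_id, Category.id_comp]
  have hone : bt R B ≤ rk R P + 1 → R.CPlus B := fun h =>
    hiff.2 (par_of_rk_le_one hQ (by omega))
  refine ⟨P, ⟨hP, hdom, htriv⟩, hlim, hbound, ⟨hfull, ?_⟩, hiff, hone, ?_⟩
  · intro hD
    have hB := cplus_of_dom hR hS hD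
    have hn : NumTriv (𝟙 B - P) := by
      obtain ⟨l, m, a, b, hab⟩ := hD
      have h1 : R.H.map (𝟙 B - P) = R.H.map (∑ i, ((𝟙 B - P) ≫ a i) ≫ b i) := by
        rw [Functor.map_sum]
        simp only [Functor.map_comp, Category.assoc]
        rw [← Preadditive.comp_sum, ← hab, R.H.map_id, Category.comp_id]
      have h2 : NumTriv (∑ i, ((𝟙 B - P) ≫ a i) ≫ b i) :=
        (numIdeal Λ B B).sum_mem fun i _ => comp_right hR (htriv (m i) (a i)) (b i)
      have h3 : NumTriv ((𝟙 B - P) - ∑ i, ((𝟙 B - P) ≫ a i) ≫ b i) := triv_of_eq hR h1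
      have h4 := (numIdeal Λ B B).add_mem h3 h2
      rwa [sub_add_cancel] at h4
    have h5 := trace_numTriv hR hB hQ hn
    rw [Functor.map_sub, sub_eq_zero] at h5
    rw [← hrkid]
    unfold rk
    rw [h5]
  · intro n hn
    have h1 := hbound n
    apply hone
    by_contra hne
    have h3 : rk R P + 2 ≤ bt R B := by omega
    have h4 := Nat.mul_le_mul_right (numRank Λ (tp (T ⊗ Tᘁ) n)) h3
    rw [add_mul] at h4
    omega

end Pool.Agent.U226.RC
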