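import Pool.Agent.U226.RC.Main

/-!
# The rank criterion
-/

set_option autoImplicit false
set_option linter.unusedSectionVars false
set_option linter.style.haveILetI false

open CategoryTheory Limits MonoidalCategory Module Filter Topology
open Pool.Agent.Y112.SR Pool.Agent.Y112.KD Pool.Agent.N64.AF Pool.Agent.N199.AFA3
open Pool.Agent.U724.NT Pool.Agent.N64.AF.N441G
open Pool.Agent.Y116.MT (tr)

namespace Pool.Agent.U226.RC

universe v u w t x

variable {C : Type u} [Category.{v} C] [Preadditive C] [MonoidalCategory C]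
  [MonoidalPreadditive C] [SymmetricCategory C] [RightRigidCategory C]
  {Λ : Type t} [Field Λ] [CharZero Λ] [Linear Λ C] [MonoidalLinear Λ C]
  {K : Type w} [Field K] [IsAlgClosed K] [Algebra Λ K] {R : SuperRealisation C K}

/-- The comparison sequence of `T`. -/
noncomputable def cs (Λ : Type t) [Field Λ] [Linear Λ C] [MonoidalLinear Λ C]
    (R : SuperRealisation C K) (T : C) (n : ℕ) : ℝ :=
  cmpSeq (fun n => numRank Λ (tp T n)) (bt R T) n

lemma cs_pos {T : C} [ExactPairing T T] (h : IsPow Λ R T) (n : ℕ) : 0 < cs Λ R T n := by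
  unfold cs
  exact_mod_cast (numRank_tendsto h).1 n

/-- The limit for a piece of a tensor power. -/
theorem tendsto_piece {T : C} [ExactPairing T T] (h : IsPow Λ R T) {m : ℕ}
    {e : tp T m ⟶ tp T m} (he : NumIdem e) {r : ℕ} (hr : IsRk R e r) :
    Tendsto (fun n => (nr Λ e (𝟙 (tp T n)) : ℝ) / cs Λ R T n) atTop (𝓝 (r : ℝ)) := by
  rw [tendsto_order]
  constructor
  · intro a ha
    filter_upwards [eventually_nr h he hr (δ := (r - a) / 2) (by linarith)] with n hn
    have hp := cs_pos h n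
    change ((r : ℝ) - (r - a) / 2) * cs Λ R T n ≤ _ at hn
    rw [lt_div_iff₀ hp]
    nlinarith
  · intro a ha
    refine Eventually.of_forall fun n => ?_
    have hp := cs_pos h n
    have h1 := nr_le_cmpSeq h he hr n
    have h2 : (nr Λ e (𝟙 (tp T n)) : ℝ) ≤ r * cs Λ R T n := by
      unfold cs
      exact_mod_cast h1
    change _ / _ < a
    rw [div_lt_iff₀ hp]
    nlinarith

lemma map_of_rk {Y : C} {P : Y ⟶ Y} (h : rk R P = 0) : R.H.map P = 0 := by
  have := R.finite Y
  unfold rk at h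
  rw [Submodule.finrank_eq_zero, LinearMap.range_eq_bot] at h
  ext x
  exact LinearMap.congr_fun h x

/-- The realisation of `P` is a sum of realisations of endomorphisms of `Y` which factor through
tensor powers of `T`. -/
def Dom (R : SuperRealisation C K) (T : C) {Y : C} (P : Y ⟶ Y) : Prop :=
  ∃ (l : ℕ) (m : Fin l → ℕ) (a : ∀ i, Y ⟶ tp T (m i)) (b : ∀ i, tp T (m i) ⟶ Y),
    R.H.map P = ∑ i, R.H.map (a i) ≫ R.H.map (b i)

lemma dom_zero {T Y : C} {P : Y ⟶ Y} (h : R.H.map P = 0) : Dom R T P :=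
  ⟨0, fun i => i.elim0, fun i => i.elim0, fun i => i.elim0, by simpa using h⟩

lemma dom_add {T Y : C} {P Q : Y ⟶ Y} (m : ℕ) (a : Y ⟶ tp T m) (b : tp T m ⟶ Y)
    (h : R.H.map P = R.H.map a ≫ R.H.map b + R.H.map Q) (hQ : Dom R T Q) : Dom R T P := by
  obtain ⟨l, k, a', b', h'⟩ := hQ
  refine ⟨l + 1, Fin.cons m k, Fin.cons (α := fun i => Y ⟶ tp T ((Fin.cons m k : Fin (l + 1) → ℕ) i)) a a',
    Fin.cons (α := fun i => tp T ((Fin.cons m k : Fin (l + 1) → ℕ) i) ⟶ Y) b b', ?_⟩
  rw [Fin.sum_univ_succ, h, h']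
  rfl


lemma dom_par (hR : IsReal Λ R) {T : C} (hT : R.CPlus T) {Y : C} {P : Y ⟶ Y} (h : Dom R T P) :
    ∃ f : Y ⟶ Y, R.H.map f = R.H.map P ≫ R.par Y := by
  obtain ⟨l, m, a, b, hab⟩ := h
  have h1 : ∀ i, ∃ w : tp T (m i) ⟶ tp T (m i), R.H.map w = R.par (tp T (m i)) := fun i =>
    P1aux.of_cplus (cplus_tp hR hT (m i))
  choose w hw using h1
  refine ⟨∑ i, a i ≫ w i ≫ b i, ?_⟩
  rw [hab, Functor.map_sum, Preadditive.sum_comp]
  refine Finset.sum_congr rfl fun i _ => ?_
  rw [R.H.map_comp, R.H.map_comp, hw i, Category.assoc, R.par_natural]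

lemma cplus_of_dom (hR : IsReal Λ R) {T : C} (hT : R.CPlus T) {Y : C} (h : Dom R T (𝟙 Y)) :
    R.CPlus Y := by
  obtain ⟨f, hf⟩ := dom_par hR hT h
  rw [R.H.map_id, Category.id_comp] at hf
  exact P1aux.cplus_of hR f hf

lemma nr_zero_iff (hR : IsReal Λ R) {Y W : C} (P : Y ⟶ Y) :
    nr Λ P (𝟙 W) = 0 ↔ ∀ g : Y ⟶ W, NumTriv (P ≫ g) := by
  have := finite_num hR (Λ := Λ) Y W
  rw [Pool.Agent.N199.AFA3.nr_eq, Submodule.finrank_eq_zero, eq_bot_iff]
  constructor
  · intro h g
    have h1 : (numIdeal Λ Y W).mkQ (P ≫ g ≫ 𝟙 W) ∈ (⊥ : Submodule Λ _) :=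
      h ⟨_, mem_sw.2 ⟨g, rfl⟩, rfl⟩
    rw [Submodule.mem_bot, Submodule.mkQ_apply, Submodule.Quotient.mk_eq_zero, mem_numIdeal,
      Category.comp_id] at h1
    exact h1
  · rintro h _ ⟨y, hy, rfl⟩
    obtain ⟨c, rfl⟩ := mem_sw.1 hy
    rw [Submodule.mem_bot, Submodule.mkQ_apply, Submodule.Quotient.mk_eq_zero, mem_numIdeal,
      Category.comp_id]
    exact h c

/-- The law for the piece cut out by a homological idempotent. -/
theorem law_aux (hR : IsReal Λ R) {T : C} (hT : R.CPlus T)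
    (hc : ∀ (m : ℕ) (u : tp T m ⟶ tp T m) (r : ℕ), NumIdem u → IsRk R u r →
      (∀ n, nr Λ u (𝟙 (tp T n)) ≤ r * numRank Λ (tp T n)) ∧
        Tendsto (fun n => (nr Λ u (𝟙 (tp T n)) : ℝ) / numRank Λ (tp T n)) atTop (𝓝 (r : ℝ)))
    {Y : C} : ∀ (k : ℕ) (P : Y ⟶ Y), HIdem R P → rk R P = k → ∃ P' : Y ⟶ Y,
      HIdem R P' ∧ rk R P' ≤ k ∧ R.H.map P ≫ R.H.map P' = R.H.map P' ∧
        R.H.map P' ≫ R.H.map P = R.H.map P' ∧ Dom R T P' ∧
        (∀ (n : ℕ) (g : Y ⟶ tp T n), NumTriv ((P - P') ≫ g)) ∧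
        (∀ n, nr Λ P (𝟙 (tp T n)) ≤ rk R P' * numRank Λ (tp T n)) ∧
        Tendsto (fun n => (nr Λ P (𝟙 (tp T n)) : ℝ) / numRank Λ (tp T n)) atTop
          (𝓝 (rk R P' : ℝ)) := by
  have hK : CharZero K := charZero_of_injective_algebraMap (algebraMap Λ K).injective
  intro k
  induction k using Nat.strong_induction_on with
  | _ k ih =>
  intro P hP hk
  by_cases hz : ∀ m, nr Λ P (𝟙 (tp T m)) = 0
  · have h0 : R.H.map (0 : Y ⟶ Y) = 0 := R.H.map_zero Y Y
    have hr0 : rk R (0 : Y ⟶ Y) = 0 := by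
      unfold rk
      rw [h0]
      simp
    refine ⟨0, ?_, ?_, ?_, ?_, dom_zero h0, ?_, ?_, ?_⟩
    · unfold HIdem
      rw [h0, comp_zero]
    · rw [hr0]
      exact Nat.zero_le _
    · rw [h0, comp_zero]
    · rw [h0, zero_comp]
    · intro n g
      rw [sub_zero]
      exact (nr_zero_iff hR P).1 (hz n) g
    · intro n
      rw [hz n]
      exact Nat.zero_le _
    · simp only [hz, hr0, Nat.cast_zero, zero_div]
      exact tendsto_const_nhds
  · push Not at hz
    obtain ⟨m, hm⟩ := hz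
    obtain ⟨a, b, u, hu, hun, hba, hPa, hbP, hub⟩ := exists_piece hR (cplus_tp hR hT m) hP hm
    set P1 : Y ⟶ Y := a ≫ b with hP1
    have hPP : R.H.map P ≫ R.H.map P = R.H.map P := hP
    have huu : R.H.map u ≫ R.H.map u = R.H.map u := hu
    have e1 : R.H.map P1 = R.H.map a ≫ R.H.map b := R.H.map_comp _ _
    have h11 : R.H.map P1 ≫ R.H.map P1 = R.H.map P1 := by
      rw [e1, Category.assoc, ← Category.assoc (R.H.map b), hba, hub]
    have hp1 : R.H.map P ≫ R.H.map P1 = R.H.map P1 := by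
      rw [e1, ← Category.assoc, hPa]
    have h1p : R.H.map P1 ≫ R.H.map P = R.H.map P1 := by
      rw [e1, Category.assoc, hbP]
    set P2 : Y ⟶ Y := P - P1 with hP2
    have e2 : R.H.map P2 = R.H.map P - R.H.map P1 := R.H.map_sub
    have h22 : HIdem R P2 := by
      unfold HIdem
      rw [e2, Preadditive.sub_comp, Preadditive.comp_sub, Preadditive.comp_sub, hPP, hp1, h1p, h11]
      abel
    have h12 : R.H.map P1 ≫ R.H.map P2 = 0 := by
      rw [e2, Preadditive.comp_sub, h1p, h11, sub_self]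
    have h21 : R.H.map P2 ≫ R.H.map P1 = 0 := by
      rw [e2, Preadditive.sub_comp, hp1, h11, sub_self]
    have hrku : rk R u ≠ 0 := fun h0 => hun (numTriv_of_map hR (map_of_rk h0))
    have hrk1 : rk R P1 = rk R u := by
      have t1 := trace_eq (R := R) (P := P1) h11
      have t2 := trace_eq hu
      have := R.finite Y
      have := R.finite (tp T m)
      have t3 : LinearMap.trace K (R.H.obj Y) (R.H.map P1).hom =
          LinearMap.trace K (R.H.obj (tp T m)) (R.H.map u).hom := by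
        rw [e1, ← hba]
        exact LinearMap.trace_comp_comm' _ _
      rw [t1, t2] at t3
      exact_mod_cast t3
    have hrk : rk R P1 + rk R P2 = rk R P := by
      have t1 := trace_eq (R := R) (P := P1) h11
      have t2 := trace_eq h22
      have t3 := trace_eq hP
      have t4 : (R.H.map P).hom = (R.H.map P1).hom + (R.H.map P2).hom := by
        rw [e2]
        ext x
        simp
      rw [t4, map_add, t1, t2] at t3
      exact_mod_cast t3
    obtain ⟨P', hP', hle, hq1, hq2, hdom, htriv, hbound, hlim⟩ :=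
      ih (rk R P2) (by omega) P2 h22 rfl
    have hPP' : R.H.map P' ≫ R.H.map P' = R.H.map P' := hP'
    have c1 : R.H.map P1 ≫ R.H.map P' = 0 := by
      rw [← hq1, ← Category.assoc, h12, zero_comp]
    have c2 : R.H.map P' ≫ R.H.map P1 = 0 := by
      rw [← hq2, Category.assoc, h21, comp_zero]
    have e3 : R.H.map (P1 + P') = R.H.map P1 + R.H.map P' := R.H.map_add
    have hsum : HIdem R (P1 + P') := by
      unfold HIdem
      rw [e3, Preadditive.add_comp, Preadditive.comp_add, Preadditive.comp_add, h11, c1, c2, hPP']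
      abel
    have hrks : rk R (P1 + P') = rk R u + rk R P' := by
      have t1 := trace_eq (R := R) (P := P1) h11
      have t2 := trace_eq hP'
      have t3 := trace_eq hsum
      have t4 : (R.H.map (P1 + P')).hom = (R.H.map P1).hom + (R.H.map P').hom := by
        rw [e3]
        rfl
      rw [t4, map_add, t1, t2, hrk1] at t3
      exact_mod_cast t3.symm
    have hnum : ∀ {A B : Y ⟶ Y}, R.H.map A ≫ R.H.map B = R.H.map B → NumTriv (A ≫ B - B) := by
      intro A B hAB
      apply triv_of_eq hR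
      rw [R.H.map_comp, hAB]
    have hsplit : ∀ n, nr Λ P1 (𝟙 (tp T n)) + nr Λ P2 (𝟙 (tp T n)) = nr Λ P (𝟙 (tp T n)) := by
      intro n
      refine nr_split hR (hnum hPP) (hnum h11) (hnum hp1) ?_ (𝟙 (tp T n))
      apply triv_of_eq hR
      rw [R.H.map_comp, h1p]
    have hnr1 : ∀ n, nr Λ P1 (𝟙 (tp T n)) = nr Λ u (𝟙 (tp T n)) := by
      intro n
      apply le_antisymm
      · refine nr_le_factor hR a b ?_ _
        apply triv_of_eq hR
        rw [e1, R.H.map_comp a (u ≫ b), R.H.map_comp u b, hub]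
      · refine nr_le_factor hR b a ?_ _
        apply triv_of_eq hR
        rw [R.H.map_comp b (P1 ≫ a), R.H.map_comp P1 a, e1, Category.assoc, hba, ← Category.assoc,
          hba, huu]
    have huI : NumIdem u := by
      unfold NumIdem
      apply triv_of_eq hR
      rw [R.H.map_comp, huu]
    obtain ⟨hc1, hc2⟩ := hc m u (rk R u) huI (trace_eq hu)
    refine ⟨P1 + P', hsum, ?_, ?_, ?_, ?_, ?_, ?_, ?_⟩
    · rw [hrks]
      omega
    · rw [e3, Preadditive.comp_add, hp1]
      congr 1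
      rw [← hq1, ← Category.assoc]
      congr 1
      rw [e2, Preadditive.comp_sub, hPP, hp1]
    · rw [e3, Preadditive.add_comp, h1p]
      congr 1
      rw [← hq2, Category.assoc]
      congr 1
      rw [e2, Preadditive.sub_comp, hPP, h1p]
    · refine dom_add m a b ?_ hdom
      rw [e3, e1]
    · intro n g
      have e4 : P - (P1 + P') = P2 - P' := by
        rw [hP2]
        abel
      rw [e4]
      exact htriv n g
    · intro n
      rw [← hsplit n, hnr1 n, hrks, add_mul]
      exact Nat.add_le_add (hc1 n) (hbound n)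
    · rw [hrks]
      push_cast
      refine (hc2.add hlim).congr fun n => ?_
      rw [← hsplit n, hnr1 n]
      push_cast
      rw [add_div]

end Pool.Agent.U226.RC
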