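import Pool.Agent.U226.RC.Piece
import Pool.Agent.N64.AF.E2

/-!
# The rank of `Hom (B, T ^ n)` modulo numerical equivalence and the sign conjecture for `B`
-/

set_option autoImplicit false
set_option linter.unusedSectionVars false

open CategoryTheory Limits MonoidalCategory Module Filter Topology
open Pool.Agent.Y112.SR Pool.Agent.Y112.KD Pool.Agent.N64.AF Pool.Agent.N199.AFA3
open Pool.Agent.U724.NT Pool.Agent.N64.AF.N441G
open Pool.Agent.Y116.MT (tr)

namespace Pool.Agent.U226.RC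

universe v u w t x

variable {C : Type u} [Category.{v} C] [Preadditive C] [MonoidalCategory C]
  [MonoidalPreadditive C] [SymmetricCategory C] [RightRigidCategory C]
  {Λ : Type t} [Field Λ] [CharZero Λ] [Linear Λ C] [MonoidalLinear Λ C]
  {K : Type w} [Field K] [IsAlgClosed K] [Algebra Λ K] {R : SuperRealisation C K}

/-- The realisation, a homomorphism of rings. -/
def rhoR (R : SuperRealisation C K) (Y : C) : End Y →+* Module.End K (R.H.obj Y) where
  toFun a := (R.H.map (a : Y ⟶ Y)).hom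
  map_one' := by
    change (R.H.map (𝟙 Y)).hom = _
    rw [R.H.map_id]
    rfl
  map_mul' a b := by
    change (R.H.map ((b : Y ⟶ Y) ≫ (a : Y ⟶ Y))).hom = _
    rw [R.H.map_comp]
    rfl
  map_zero' := by
    change (R.H.map (0 : Y ⟶ Y)).hom = _
    rw [R.H.map_zero]
    rfl
  map_add' a b := by
    change (R.H.map ((a : Y ⟶ Y) + (b : Y ⟶ Y))).hom = _
    rw [R.H.map_add]
    rfl

/-- **A piece of `Y` which is a piece of `W`.** -/
theorem exists_piece (hR : IsReal Λ R) {W : C} (hW : R.CPlus W) {Y : C} {P : Y ⟶ Y}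
    (hP : HIdem R P) (h : nr Λ P (𝟙 W) ≠ 0) : ∃ (a : Y ⟶ W) (b : W ⟶ Y) (u : W ⟶ W),
      HIdem R u ∧ ¬ NumTriv u ∧ R.H.map b ≫ R.H.map a = R.H.map u ∧
        R.H.map P ≫ R.H.map a = R.H.map a ∧ R.H.map b ≫ R.H.map P = R.H.map b ∧
          R.H.map u ≫ R.H.map b = R.H.map b := by
  have h1 : ∃ g : Y ⟶ W, ¬ NumTriv (P ≫ g) := by
    by_contra hcon
    push Not at hcon
    apply h
    rw [Pool.Agent.N199.AFA3.nr_eq]
    have h2 : (sw Λ P (𝟙 W)).map (numIdeal Λ Y W).mkQ = ⊥ := by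
      rw [eq_bot_iff]
      rintro _ ⟨y, hy, rfl⟩
      obtain ⟨c, rfl⟩ := mem_sw.1 hy
      rw [Submodule.mem_bot, Submodule.mkQ_apply, Submodule.Quotient.mk_eq_zero, mem_numIdeal,
        Category.comp_id]
      exact hcon c
    rw [h2, finrank_bot]
  obtain ⟨g, hg⟩ := h1
  have h2 : ∃ g' : W ⟶ Y, tr ((P ≫ g) ≫ g') ≠ 0 := by
    by_contra hcon
    push Not at hcon
    exact hg hcon
  obtain ⟨g', hg'⟩ := h2
  obtain ⟨c, hc0⟩ : ∃ c : End W, c = (g' ≫ P ≫ g : W ⟶ W) := ⟨_, rfl⟩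
  have hc : ¬ NumTriv (c : W ⟶ W) := by
    intro hn
    have h3 := hn (𝟙 W)
    rw [Category.comp_id, hc0] at h3
    exact hg' ((tr_comm_zero hR g' (P ≫ g)).1 h3)
  haveI := idl_two hR W
  haveI : IsSemisimpleRing (End W ⧸ idl hR W) := semisimple hR hW (idl hR W) (mem_idl hR W)
  obtain ⟨q, hq⟩ := Pool.Agent.N833.AF.regular_of_ss (Ideal.Quotient.mk (idl hR W) c)
  obtain ⟨v, rfl⟩ := Ideal.Quotient.mk_surjective q
  set e : End W := v * c with he
  have hee : Ideal.Quotient.mk (idl hR W) (e * e - e) = 0 := by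
    rw [map_sub, map_mul, he, map_mul]
    have h3 : Ideal.Quotient.mk (idl hR W) v * Ideal.Quotient.mk (idl hR W) c *
        (Ideal.Quotient.mk (idl hR W) v * Ideal.Quotient.mk (idl hR W) c) =
        Ideal.Quotient.mk (idl hR W) v * (Ideal.Quotient.mk (idl hR W) c *
          Ideal.Quotient.mk (idl hR W) v * Ideal.Quotient.mk (idl hR W) c) := by
      simp only [mul_assoc]
    rw [h3, hq, sub_self]
  have hee' : NumTriv ((e * e - e : End W) : W ⟶ W) :=
    (mem_idl hR W _).1 (Ideal.Quotient.eq_zero_iff_mem.1 hee)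
  obtain ⟨k, hk⟩ := exists_pow_hom hR hW hee'
  obtain ⟨u, s, hu1, hu2, hu3, hu4⟩ := exists_lift e (Nat.succ_pos k)
  have hu5 : rhoR R W u * rhoR R W u = rhoR R W u := by
    apply hu3
    have h4 : rhoR R W ((e * e - e) ^ k) = 0 := by
      change (R.H.map (((e * e - e) ^ k : End W) : W ⟶ W)).hom = 0
      rw [hk]
      rfl
    rw [pow_succ, ← map_pow, h4, zero_mul]
  have hu6 : HIdem R (u : W ⟶ W) := by
    ext x
    exact LinearMap.congr_fun hu5 x
  have hu7 : ¬ NumTriv (u : W ⟶ W) := by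
    intro hn
    have h5 : Ideal.Quotient.mk (idl hR W) u = 0 := Ideal.Quotient.eq_zero_iff_mem.2 hn
    rw [hu4 _ hee, he, map_mul] at h5
    rw [mul_assoc, h5, mul_zero] at hq
    exact hc ((mem_idl hR W _).1 (Ideal.Quotient.eq_zero_iff_mem.1 hq.symm))
  have hPP : R.H.map P ≫ R.H.map P = R.H.map P := hP
  have hPP' : ∀ {Z : ModuleCat.{w} K} (z : R.H.obj Y ⟶ Z),
      R.H.map P ≫ R.H.map P ≫ z = R.H.map P ≫ z := by
    intro Z z
    rw [← Category.assoc, hPP]
  have huu : ∀ {Z : ModuleCat.{w} K} (z : R.H.obj W ⟶ Z),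
      R.H.map (u : W ⟶ W) ≫ R.H.map (u : W ⟶ W) ≫ z = R.H.map (u : W ⟶ W) ≫ z := by
    intro Z z
    have := hu6
    unfold HIdem at this
    rw [← Category.assoc, this]
  refine ⟨P ≫ g ≫ (v : W ⟶ W), (u : W ⟶ W) ≫ (s : W ⟶ W) ≫ g' ≫ P, u, hu6, hu7, ?_, ?_, ?_, ?_⟩
  · have h6 : (s : W ⟶ W) ≫ (e : W ⟶ W) = (u : W ⟶ W) := by
      rw [hu1]
      rfl
    have h7 : (e : W ⟶ W) = g' ≫ P ≫ g ≫ (v : W ⟶ W) := by
      have h8 : (e : W ⟶ W) = (c : W ⟶ W) ≫ (v : W ⟶ W) := rfl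
      rw [h8, hc0]
      simp only [Category.assoc]
    have h9 : R.H.map (s : W ⟶ W) ≫ R.H.map g' ≫ R.H.map P ≫ R.H.map g ≫
        R.H.map (v : W ⟶ W) = R.H.map (u : W ⟶ W) := by
      rw [← h6, h7]
      simp only [Functor.map_comp]
    simp only [Functor.map_comp, Category.assoc, hPP']
    rw [h9]
    exact hu6
  · simp only [Functor.map_comp, hPP']
  · simp only [Functor.map_comp, Category.assoc, hPP]
  · simp only [Functor.map_comp, huu]

end Pool.Agent.U226.RC
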