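import Pool.Agent.U226.FX.Num
import Pool.Agent.U724.NT.Growth
import Pool.Agent.N64.AF.L1

/-!
# Splitting off the part of an object which is related to the powers of `T`
-/

set_option autoImplicit false
set_option linter.unusedSectionVars false

open CategoryTheory Limits MonoidalCategory Module Filter Topology
open Pool.Agent.Y112.SR Pool.Agent.Y112.KD Pool.Agent.N64.AF Pool.Agent.N199.AFA3
open Pool.Agent.U724.NT
open Pool.Agent.Y116.MT (tr)

namespace Pool.Agent.U226.RC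

universe v u w t x

variable {C : Type u} [Category.{v} C] [Preadditive C] [MonoidalCategory C]
  [MonoidalPreadditive C] [SymmetricCategory C] [RightRigidCategory C]
  {Λ : Type t} [Field Λ] [CharZero Λ] [Linear Λ C] [MonoidalLinear Λ C]
  {K : Type w} [Field K] [IsAlgClosed K] [Algebra Λ K] {R : SuperRealisation C K}

/-- The realisation of `P` is idempotent. -/
def HIdem (R : SuperRealisation C K) {Y : C} (P : Y ⟶ Y) : Prop :=
  R.H.map P ≫ R.H.map P = R.H.map P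

/-- The rank of the realisation. -/
noncomputable def rk (R : SuperRealisation C K) {Y : C} (P : Y ⟶ Y) : ℕ :=
  finrank K (LinearMap.range (R.H.map P).hom)

lemma trace_eq {Y : C} {P : Y ⟶ Y} (hP : HIdem R P) :
    LinearMap.trace K (R.H.obj Y) (R.H.map P).hom = (rk R P : K) := by
  have := R.finite Y
  have h0 : (R.H.map P).hom ∘ₗ (R.H.map P).hom = (R.H.map P).hom := by
    have h1 := congrArg (fun z => z.hom) hP
    exact h1
  have h1 : LinearMap.IsProj (LinearMap.range (R.H.map P).hom) (R.H.map P).hom := by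
    refine ⟨fun x => ⟨x, rfl⟩, ?_⟩
    rintro _ ⟨x, rfl⟩
    exact LinearMap.congr_fun h0 x
  exact h1.trace

lemma triv_of_eq (hR : IsReal Λ R) {Y Z : C} {a b : Y ⟶ Z} (h : R.H.map a = R.H.map b) :
    NumTriv (a - b) := by
  apply numTriv_of_map hR
  rw [Functor.map_sub, h, sub_self]

/-- Comparison of ranks for a factorisation. -/
theorem nr_le_factor (hR : IsReal Λ R) {Y Y' Z : C} {e : Y ⟶ Y} {e' : Y' ⟶ Y'} (a : Y ⟶ Y')
    (b : Y' ⟶ Y) (h : NumTriv (e - a ≫ e' ≫ b)) (f : Z ⟶ Z) : nr Λ e f ≤ nr Λ e' f := by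
  rw [Pool.Agent.N199.AFA3.nr_eq, Pool.Agent.N199.AFA3.nr_eq]
  have i1 := finite_num hR (Λ := Λ) Y Z
  have i2 := finite_num hR (Λ := Λ) Y' Z
  let L : ((Y' ⟶ Z) ⧸ numIdeal Λ Y' Z) →ₗ[Λ] ((Y ⟶ Z) ⧸ numIdeal Λ Y Z) :=
    (numIdeal Λ Y' Z).mapQ (numIdeal Λ Y Z) (Linear.leftComp Λ Z a)
      (fun x hx => comp_left hR hx a)
  have h1 : (sw Λ e f).map (numIdeal Λ Y Z).mkQ ≤
      ((sw Λ e' f).map (numIdeal Λ Y' Z).mkQ).map L := by
    rintro _ ⟨y, hy, rfl⟩
    obtain ⟨c, rfl⟩ := mem_sw.1 hy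
    refine ⟨_, ⟨e' ≫ (b ≫ c) ≫ f, mem_sw.2 ⟨_, rfl⟩, rfl⟩, ?_⟩
    change Submodule.Quotient.mk (a ≫ e' ≫ (b ≫ c) ≫ f) = Submodule.Quotient.mk (e ≫ c ≫ f)
    rw [Submodule.Quotient.eq, mem_numIdeal]
    have h2 : a ≫ e' ≫ (b ≫ c) ≫ f - e ≫ c ≫ f = -((e - a ≫ e' ≫ b) ≫ (c ≫ f)) := by
      simp only [Preadditive.sub_comp, Category.assoc]
      abel
    rw [h2]
    exact (numIdeal Λ Y Z).neg_mem (comp_right hR h _)
  exact (Submodule.finrank_mono h1).trans (Submodule.finrank_map_le _ _)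

/-- Orthogonal decompositions. -/
theorem nr_split (hR : IsReal Λ R) {Y Z : C} {P Q : Y ⟶ Y} (hP : NumTriv (P ≫ P - P))
    (hQ : NumTriv (Q ≫ Q - Q)) (h1 : NumTriv (P ≫ Q - Q)) (h2 : NumTriv (Q ≫ P - Q))
    (f : Z ⟶ Z) : nr Λ Q f + nr Λ (P - Q) f = nr Λ P f := by
  have := finite_num hR (Λ := Λ) Y Z
  rw [Pool.Agent.N199.AFA3.nr_eq, Pool.Agent.N199.AFA3.nr_eq, Pool.Agent.N199.AFA3.nr_eq]
  set N := numIdeal Λ Y Z with hN
  have k1 : (sw Λ P f).map N.mkQ = (sw Λ Q f).map N.mkQ ⊔ (sw Λ (P - Q) f).map N.mkQ := by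
    apply le_antisymm
    · rw [← Submodule.map_sup]
      apply Submodule.map_mono
      intro x hx
      obtain ⟨c, rfl⟩ := mem_sw.1 hx
      rw [Submodule.mem_sup]
      refine ⟨Q ≫ c ≫ f, mem_sw.2 ⟨c, rfl⟩, (P - Q) ≫ c ≫ f, mem_sw.2 ⟨c, rfl⟩, ?_⟩
      rw [← Preadditive.add_comp, add_sub_cancel]
    · apply sup_le
      · rintro _ ⟨y, hy, rfl⟩
        obtain ⟨c, rfl⟩ := mem_sw.1 hy
        refine ⟨P ≫ (Q ≫ c) ≫ f, mem_sw.2 ⟨_, rfl⟩, ?_⟩
        rw [Submodule.mkQ_apply, Submodule.mkQ_apply, Submodule.Quotient.eq]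
        have e1 : P ≫ (Q ≫ c) ≫ f - Q ≫ c ≫ f = (P ≫ Q - Q) ≫ (c ≫ f) := by
          simp only [Preadditive.sub_comp, Category.assoc]
        rw [e1]
        exact comp_right hR h1 _
      · rintro _ ⟨y, hy, rfl⟩
        obtain ⟨c, rfl⟩ := mem_sw.1 hy
        refine ⟨P ≫ ((P - Q) ≫ c) ≫ f, mem_sw.2 ⟨_, rfl⟩, ?_⟩
        rw [Submodule.mkQ_apply, Submodule.mkQ_apply, Submodule.Quotient.eq]
        have e1 : P ≫ ((P - Q) ≫ c) ≫ f - (P - Q) ≫ c ≫ f =
            (P ≫ P - P) ≫ (c ≫ f) - (P ≫ Q - Q) ≫ (c ≫ f) := by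
          simp only [Preadditive.sub_comp, Preadditive.comp_sub, Category.assoc]
          abel
        rw [e1]
        exact N.sub_mem (comp_right hR hP _) (comp_right hR h1 _)
  have k2 : (sw Λ Q f).map N.mkQ ⊓ (sw Λ (P - Q) f).map N.mkQ = ⊥ := by
    rw [eq_bot_iff]
    rintro x ⟨hx1, hx2⟩
    obtain ⟨y, hy, rfl⟩ := Submodule.mem_map.1 hx1
    obtain ⟨y', hy', hyy'⟩ := Submodule.mem_map.1 hx2
    obtain ⟨c, rfl⟩ := mem_sw.1 hy
    obtain ⟨c', rfl⟩ := mem_sw.1 hy'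
    rw [Submodule.mkQ_apply, Submodule.mkQ_apply, Submodule.Quotient.eq] at hyy'
    rw [Submodule.mem_bot, Submodule.mkQ_apply, Submodule.Quotient.mk_eq_zero]
    have e1 : Q ≫ ((P - Q) ≫ c' ≫ f - Q ≫ c ≫ f) ∈ N := comp_left hR hyy' Q
    have e2 : (Q ≫ Q - Q) ≫ (c' ≫ f) ∈ N := comp_right hR hQ _
    have e3 : (Q ≫ Q - Q) ≫ (c ≫ f) ∈ N := comp_right hR hQ _
    have e5 : (Q ≫ P - Q) ≫ (c' ≫ f) ∈ N := comp_right hR h2 _
    have e4 : Q ≫ c ≫ f = (Q ≫ P - Q) ≫ (c' ≫ f) - (Q ≫ Q - Q) ≫ (c' ≫ f) -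
        (Q ≫ ((P - Q) ≫ c' ≫ f - Q ≫ c ≫ f)) - (Q ≫ Q - Q) ≫ (c ≫ f) := by
      simp only [Preadditive.comp_sub, Preadditive.sub_comp, Category.assoc]
      abel
    rw [e4]
    exact N.sub_mem (N.sub_mem (N.sub_mem e5 e2) e1) e3
  have h3 := Submodule.finrank_sup_add_finrank_inf_eq ((sw Λ Q f).map N.mkQ)
    ((sw Λ (P - Q) f).map N.mkQ)
  rw [k2, ← k1, finrank_bot, add_zero] at h3
  exact h3.symm

/-- Lifting of idempotents: `u = e * s` with `s` commuting with `e`. -/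
lemma exists_lift {A : Type*} [Ring A] (e : A) {k : ℕ} (hk : 0 < k) : ∃ u s : A,
    u = e * s ∧ u = s * e ∧
      (∀ {B : Type*} [Ring B] (φ : A →+* B), (φ (e * e - e)) ^ k = 0 → φ u * φ u = φ u) ∧
      ∀ {B : Type*} [Ring B] (φ : A →+* B), φ (e * e - e) = 0 → φ u = φ e := by
  obtain ⟨j, rfl⟩ : ∃ j, k = j + 1 := ⟨k - 1, by omega⟩
  set G : A := ∑ i ∈ Finset.range (j + 1), (1 - e ^ (j + 1)) ^ i with hG
  have hcomm : Commute e G := by
    rw [hG]
    refine Commute.sum_right _ _ _ fun i _ => ?_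
    exact ((Commute.one_right e).sub_right (Commute.pow_right (Commute.refl e) _)).pow_right _
  have hu : e ^ (j + 1) * G = 1 - (1 - e ^ (j + 1)) ^ (j + 1) := by
    have h1 := mul_neg_geom_sum (1 - e ^ (j + 1)) (j + 1)
    rwa [sub_sub_cancel] at h1
  refine ⟨1 - (1 - e ^ (j + 1)) ^ (j + 1), e ^ j * G, ?_, ?_, ?_, ?_⟩
  · rw [← hu, pow_succ', mul_assoc]
  · rw [← hu, mul_assoc, ← hcomm.eq, ← mul_assoc, ← pow_succ]
  · intro B _ φ h
    set x := φ e with hx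
    have hx0 : (x * x - x) ^ (j + 1) = 0 := by
      rw [← h, map_sub, map_mul]
    have hc1 : Commute x (1 - x) := (Commute.one_right x).sub_right (Commute.refl x)
    have hx1 : x ^ (j + 1) * (1 - x) ^ (j + 1) = 0 := by
      have h2 : x * x - x = -(x * (1 - x)) := by
        rw [mul_sub, mul_one]
        abel
      rw [← hc1.mul_pow]
      rw [h2, neg_pow] at hx0
      rcases neg_one_pow_eq_or B (j + 1) with h3 | h3
      · rwa [h3, one_mul] at hx0
      · rwa [h3, neg_one_mul, neg_eq_zero] at hx0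
    -- `1 - x ^ (j+1)` is a multiple of `1 - x`
    set S : B := ∑ i ∈ Finset.range (j + 1), x ^ i with hS
    have hS1 : 1 - x ^ (j + 1) = (1 - x) * S := (mul_neg_geom_sum x (j + 1)).symm
    have hcS : Commute (1 - x) S := by
      rw [hS]
      exact Commute.sum_right _ _ _ fun i _ => (hc1.symm.pow_right _)
    have hy : φ (1 - (1 - e ^ (j + 1)) ^ (j + 1)) = 1 - (1 - x ^ (j + 1)) ^ (j + 1) := by
      simp only [map_sub, map_one, map_pow, hx]
    rw [hy]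
    set y := (1 - x ^ (j + 1)) ^ (j + 1) with hyd
    have hz : (1 - y) * y = 0 := by
      have h4 : φ (e ^ (j + 1) * G) = 1 - y := by
        rw [hu, hy]
      rw [← h4, map_mul, map_pow, ← hx, hyd, hS1, hcS.mul_pow]
      have hcG : Commute (φ G) ((1 - x) ^ (j + 1)) := by
        have : Commute (φ G) (1 - x) := by
          have h5 : Commute (φ G) x := by
            have h6 := hcomm.symm.map φ
            exact h6
          exact (Commute.one_right _).sub_right h5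
        exact this.pow_right _
      calc x ^ (j + 1) * φ G * ((1 - x) ^ (j + 1) * S ^ (j + 1))
          = x ^ (j + 1) * (φ G * (1 - x) ^ (j + 1)) * S ^ (j + 1) := by
            simp only [mul_assoc]
        _ = x ^ (j + 1) * ((1 - x) ^ (j + 1) * φ G) * S ^ (j + 1) := by rw [hcG.eq]
        _ = (x ^ (j + 1) * (1 - x) ^ (j + 1)) * φ G * S ^ (j + 1) := by
            simp only [mul_assoc]
        _ = 0 := by rw [hx1, zero_mul, zero_mul]
    calc (1 - y) * (1 - y) = (1 - y) - (1 - y) * y := by noncomm_ring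
      _ = 1 - y := by rw [hz, sub_zero]
  · intro B _ φ h
    have hid : IsIdempotentElem (φ e) := by
      rw [map_sub, map_mul, sub_eq_zero] at h
      exact h
    have h1 : φ (1 - (1 - e ^ (j + 1)) ^ (j + 1)) =
        1 - (1 - (φ e) ^ (j + 1)) ^ (j + 1) := by
      simp only [map_sub, map_one, map_pow]
    rw [h1, hid.pow_succ_eq, hid.one_sub.pow_succ_eq, sub_sub_cancel]

end Pool.Agent.U226.RC
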